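import Pool.Agent.Helper57.TW.Goals
import Pool.Agent.Helper47.CR.LO

/-! # Packet LC: lower bound for the L series away from real characters near the real axis -/

set_option autoImplicit false

open Finset Filter Topology

namespace Pool.Agent.Helper12.TW

open Pool.Agent.Helper88.CR
open Pool.Agent.Helper47.CR

set_option maxHeartbeats 4000000 in
theorem lc (h1 : StmtCH) (h2 : StmtZB) (h3 : StmtP4) : Pool.Agent.Helper57.TW.StmtLC := by
  classical
  intro c' hc' hc'1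
  obtain ⟨K1, hK1, hCH⟩ := h1
  obtain ⟨K2, hK2, hZB⟩ := h2
  set K := max K1 K2 with hKdef
  have hKK1 : K1 ≤ K := le_max_left _ _
  have hKK2 : K2 ≤ K := le_max_right _ _
  have hK : 1 ≤ K := hK1.trans hKK1
  have hK0 : 0 < K := by linarith
  set r : ℝ := Real.sqrt c' with hrdef
  have hr : 0 < r := Real.sqrt_pos.2 hc'
  have hrc : r ^ 2 = c' := Real.sq_sqrt hc'.le
  set c : ℝ := r ^ 2 / (256 * K ^ 12) with hcdef
  have hc : 0 < c := by positivity
  have hcr : c ≤ r ^ 2 := by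
    rw [hcdef]
    refine div_le_self (by positivity) ?_
    have : 1 ≤ K ^ 12 := one_le_pow₀ hK
    linarith
  have hr2 : r ^ 2 ≤ 1 := by rw [hrc]; exact hc'1
  have hc1 : c ≤ 1 := hcr.trans hr2
  refine ⟨c, hc, by rw [← hrc]; exact hcr, 2 ^ 32, ?_⟩
  intro z q _ hz hqz χ hχ s hs1 hs2 hst hcase
  have hz' : (2 : ℝ) ^ 32 ≤ z := by exact_mod_cast hz
  have hz0 : (0 : ℝ) < z := lt_of_lt_of_le (by positivity) hz'
  have hz16 : 16 ≤ z := le_trans (by norm_num) hz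
  have hqz1 : q ≤ z := le_trans (Nat.le_self_pow (by norm_num) q) hqz
  set l := Real.log z with hl
  have hl1 : 1 ≤ l := by
    rw [hl, Real.le_log_iff_exp_le hz0]
    have := Real.exp_one_lt_d9
    linarith
  have hl0 : 0 < l := by linarith
  have hz32 : (2 : ℝ) ≤ (z : ℝ) ^ (1 / 32 : ℝ) := by
    have : (2 : ℝ) = ((2 : ℝ) ^ 32) ^ (1 / 32 : ℝ) := by
      rw [← Real.rpow_natCast, ← Real.rpow_mul (by norm_num)]
      norm_num
    rw [this]
    exact Real.rpow_le_rpow (by positivity) hz' (by norm_num)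
  have hzsq : (z : ℝ) ^ (1 / 16 : ℝ) = (z : ℝ) ^ (1 / 32 : ℝ) * (z : ℝ) ^ (1 / 32 : ℝ) := by
    rw [← Real.rpow_add hz0]
    norm_num
  have hz3216 : 2 * (z : ℝ) ^ (1 / 32 : ℝ) ≤ (z : ℝ) ^ (1 / 16 : ℝ) := by
    rw [hzsq]
    nlinarith only [hz32]
  have hz32pos : 0 < (z : ℝ) ^ (1 / 32 : ℝ) := by linarith
  -- bounds
  have hL0 : ∀ χ : DirichletCharacter ℂ q, χ ≠ 1 → ∀ s ∈ Om z, ‖LL (ch z χ) 0 s‖ ≤ 2 * K := by
    intro χ hχ s hs
    have h := (hCH z q hz16 hqz s 0 hs.1 hs.2.1 hs.2.2).1 χ hχ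
    rw [if_pos rfl, pow_zero, mul_one] at h
    have h5 := norm_add_le (LL (ch z χ) 0 s - 1) 1
    rw [sub_add_cancel, norm_one] at h5
    linarith
  have hL1 : ∀ χ : DirichletCharacter ℂ q, χ ≠ 1 → ∀ s ∈ Om z,
      ‖LL (ch z χ) 1 s‖ ≤ K ^ 2 * l := by
    intro χ hχ s hs
    have h := (hCH z q hz16 hqz s 1 hs.1 hs.2.1 hs.2.2).1 χ hχ
    rw [if_neg one_ne_zero, sub_zero, pow_one] at h
    calc _ ≤ _ := h
      _ = K1 ^ 2 * l := by rw [hl]; ring
      _ ≤ K ^ 2 * l := by gcongr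
  have hZ : ∀ s ∈ Om z, ‖LL (ci z 1 0) 0 s‖ ≤ K * (1 + 1 / (l * ‖s - 1‖)) := by
    intro s hs
    refine (hZB z hz16 s hs.1 hs.2.1 hs.2.2).trans ?_
    rw [← hl]
    gcongr
  have hOm : ∀ x t : ℝ, 0 < x → x ≤ 1 / l → |t| ≤ 2 * (z : ℝ) ^ (1 / 32 : ℝ) →
      (⟨1 + x, t⟩ : ℂ) ∈ Om z := by
    intro x t hx hx1 ht
    refine ⟨?_, ?_, ?_⟩
    · change 1 < 1 + x
      linarith
    · change 1 + x ≤ 2
      have : 1 / l ≤ 1 := by rw [div_le_one hl0]; exact hl1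
      linarith
    · exact ht.trans hz3216
  have hrl : r ^ 2 / l ≤ 1 / l := by gcongr
  -- coordinates
  obtain ⟨x, hx⟩ : ∃ x, s.re = 1 + x := ⟨s.re - 1, by ring⟩
  set t := s.im with ht
  have hx0 : 0 < x := by linarith
  have hxc : x ≤ c / l := by linarith
  have hcl : c / l ≤ r ^ 2 / l := by gcongr
  have hsΩ : s ∈ Om z := by
    have : s = ⟨1 + x, t⟩ := Complex.ext hx rfl
    rw [this]
    exact hOm x t hx0 (hxc.trans (hcl.trans hrl)) (by linarith)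
  -- region (C)
  have hcx : (0 : ℝ) < c / l := by positivity
  set s₀ : ℂ := ⟨1 + c / l, t⟩ with hs₀
  have hs₀Ω : s₀ ∈ Om z := hOm _ _ hcx (hcl.trans hrl) (by linarith)
  have h5 := h3 z q hqz1 χ (c / l) t hcx
  have e0 : (1 + ((c / l : ℝ) : ℂ)) = ⟨1 + c / l, 0⟩ := one_add_ofReal _
  have e1 : (1 + ((c / l : ℝ) : ℂ) + Complex.I * (t : ℂ)) = s₀ := one_add_ofReal' _ _
  have e2 : (1 + ((c / l : ℝ) : ℂ) + 2 * Complex.I * (t : ℂ)) = ⟨1 + c / l, 2 * t⟩ :=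
    one_add_ofReal'' _ _
  rw [e1, e2, e0] at h5
  have hA : ‖LL (ci z 1 0) 0 ⟨1 + c / l, 0⟩‖ ≤ 2 * K / c := by
    have hm : (⟨1 + c / l, 0⟩ : ℂ) ∈ Om z :=
      hOm _ _ hcx (hcl.trans hrl) (by rw [abs_zero]; positivity)
    refine (hZ _ hm).trans ?_
    have e3 : ‖(⟨1 + c / l, 0⟩ : ℂ) - 1‖ = c / l := by
      rw [← e0, add_sub_cancel_left, Complex.norm_real, Real.norm_eq_abs, abs_of_pos hcx]
    rw [e3, mul_div_cancel₀ _ hl0.ne']
    have : 1 ≤ 1 / c := by rw [le_div_iff₀ hc, one_mul]; exact hc1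
    calc K * (1 + 1 / c) ≤ K * (1 / c + 1 / c) := by
          apply mul_le_mul_of_nonneg_left _ (by linarith)
          linarith
      _ = 2 * K / c := by ring
  have hm2 : (⟨1 + c / l, 2 * t⟩ : ℂ) ∈ Om z :=
    hOm _ _ hcx (hcl.trans hrl) (by rw [abs_mul, abs_two]; linarith)
  have hB : ‖LL (ch z (χ ^ 2)) 0 ⟨1 + c / l, 2 * t⟩‖ ≤ 2 * K / r ^ 2 := by
    have hr2' : 1 ≤ 1 / r ^ 2 := by rw [le_div_iff₀ (by positivity), one_mul]; exact hr2
    by_cases hsq : χ ^ 2 = 1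
    · rw [hsq, ch_one hqz1]
      refine (hZ _ hm2).trans ?_
      have ht' : r ^ 2 / l ≤ |t| := by
        rw [hrc]
        rcases hcase with h | h
        · exact absurd hsq h
        · exact h
      have e3 : r ^ 2 / l ≤ ‖(⟨1 + c / l, 2 * t⟩ : ℂ) - 1‖ := by
        have h6 := Complex.abs_im_le_norm ((⟨1 + c / l, 2 * t⟩ : ℂ) - 1)
        have e4 : ((⟨1 + c / l, 2 * t⟩ : ℂ) - 1).im = 2 * t := by simp
        rw [e4, abs_mul, abs_two] at h6
        have : 0 ≤ |t| := abs_nonneg t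
        linarith
      have hpos : (0 : ℝ) < r ^ 2 / l := by positivity
      have e5 : 1 / (l * ‖(⟨1 + c / l, 2 * t⟩ : ℂ) - 1‖) ≤ 1 / r ^ 2 := by
        apply one_div_le_one_div_of_le (by positivity)
        calc r ^ 2 = l * (r ^ 2 / l) := by field_simp
          _ ≤ _ := by gcongr
      calc K * (1 + 1 / (l * ‖(⟨1 + c / l, 2 * t⟩ : ℂ) - 1‖))
          ≤ K * (1 / r ^ 2 + 1 / r ^ 2) := by
            apply mul_le_mul_of_nonneg_left _ (by linarith)
            linarith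
        _ = 2 * K / r ^ 2 := by ring
    · refine (hL0 _ hsq _ hm2).trans ?_
      calc 2 * K = 2 * K * 1 := by ring
        _ ≤ 2 * K * (1 / r ^ 2) := by gcongr
        _ = 2 * K / r ^ 2 := by ring
  set X := ‖LL (ch z χ) 0 s₀‖ with hX
  have hX0 : 0 ≤ X := norm_nonneg _
  have h8 : 2 * K ^ 2 * c ≤ X :=
    algC hK0 hr hc hX0 hcdef (norm_nonneg _) (norm_nonneg _) hA hB h5
  have h9 := mvt z χ (hL1 χ hχ) hsΩ hs₀Ω
  have h10 : ‖s - s₀‖ ≤ c / l := by
    have e3 : s - s₀ = ((x - c / l : ℝ) : ℂ) := by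
      apply Complex.ext
      · rw [Complex.sub_re, hx, hs₀, Complex.ofReal_re]
        change 1 + x - (1 + c / l) = _
        ring
      · rw [Complex.sub_im, hs₀, Complex.ofReal_im]
        change t - t = 0
        ring
    rw [e3, Complex.norm_real, Real.norm_eq_abs, abs_le]
    constructor <;> linarith
  have h11 : K ^ 2 * l * ‖s - s₀‖ ≤ K ^ 2 * c := by
    calc _ ≤ K ^ 2 * l * (c / l) := by gcongr
      _ = K ^ 2 * c := by field_simp
  have h12 : c ≤ K ^ 2 * c := by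
    have : 1 ≤ K ^ 2 := one_le_pow₀ hK
    nlinarith only [this, hc]
  linarith

end Pool.Agent.Helper12.TW
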